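import Mathlib
import Pool.Agent.H.MP_c32163_co.A

set_option autoImplicit false

namespace Pool.Agent.Results.MP_c32163_co.K23

open Finset Matrix Pool.Agent.H.MP_c32163_co

def IsDesign {v b : ℕ} (k : ℕ) (N : Matrix (Fin v) (Fin b) ℕ) : Prop := ∀ B, ∑ i, N i B = k

def conc {v b : ℕ} (N : Matrix (Fin v) (Fin b) ℕ) (i j : Fin v) : ℕ := ∑ B, N i B * N j B

def Conn {v b : ℕ} (N : Matrix (Fin v) (Fin b) ℕ) : Prop :=
  (SimpleGraph.fromRel (fun i j => 0 < conc N i j)).Connected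

noncomputable def info {v b : ℕ} (k : ℕ) (N : Matrix (Fin v) (Fin b) ℕ) : Matrix (Fin v) (Fin v) ℝ :=
  Matrix.diagonal (fun i => ∑ B, (N i B : ℝ)) -
    (1 / (k : ℝ)) • (N.map (Nat.cast : ℕ → ℝ) * (N.map (Nat.cast : ℕ → ℝ))ᵀ)

noncomputable def theta {v b : ℕ} (k : ℕ) (N : Matrix (Fin v) (Fin b) ℕ) : Multiset ℝ :=
  (info k N).charpoly.roots.erase 0

def var {v : ℕ} (G : Matrix (Fin v) (Fin v) ℝ) (i j : Fin v) : ℝ :=
  (Pi.single i 1 - Pi.single j 1) ⬝ᵥ G *ᵥ (Pi.single i 1 - Pi.single j 1)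

lemma conc_comm {v b : ℕ} (N : Matrix (Fin v) (Fin b) ℕ) (i j : Fin v) : conc N i j = conc N j i := by
  simp [conc, mul_comm]

lemma info_apply {v b : ℕ} (N : Matrix (Fin v) (Fin b) ℕ) (h : IsDesign 2 N) (i j : Fin v) :
    info 2 N i j = (if i = j then (∑ l, (conc N i l : ℝ)) / 2 else 0) - (conc N i j : ℝ) / 2 := by
  have h1 : ∑ l, (conc N i l : ℝ) = 2 * ∑ B, (N i B : ℝ) := by
    unfold conc
    push_cast
    rw [sum_comm, mul_sum]
    apply sum_congr rfl
    intro B _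
    rw [← mul_sum]
    have : ∑ l, (N l B : ℝ) = 2 := by exact_mod_cast h B
    rw [this, mul_comm]
  rw [h1]
  simp only [info, Matrix.sub_apply, diagonal_apply, Matrix.smul_apply, Matrix.mul_apply, map_apply,
    transpose_apply, conc, smul_eq_mul]
  push_cast
  split_ifs <;> ring

lemma tot (N : Matrix (Fin 5) (Fin 6) ℕ) (h : IsDesign 2 N) :
    conc N 0 1 + conc N 0 2 + conc N 0 3 + conc N 0 4 + conc N 1 2 + conc N 1 3 + conc N 1 4 + conc N 2 3 + conc N 2 4 + conc N 3 4 ≤ 6 := by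
  unfold conc
  simp only [← sum_add_distrib]
  refine le_trans (sum_le_sum (g := fun _ => 1) fun B _ => ?_) (by simp)
  have := h B
  rw [Fin.sum_univ_five] at this
  generalize N 0 B = a at *
  generalize N 1 B = b at *
  generalize N 2 B = c at *
  generalize N 3 B = d at *
  generalize N 4 B = e at *
  have h2 : (a + b + c + d + e) * (a + b + c + d + e) = 4 := by rw [this]
  nlinarith [Nat.le_mul_self a, Nat.le_mul_self b, Nat.le_mul_self c, Nat.le_mul_self d, Nat.le_mul_self e]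

lemma nocut (N : Matrix (Fin 5) (Fin 6) ℕ) (hc : Conn N) (S : Finset (Fin 5)) (a : Fin 5) (ha : a ∈ S)
    (h4 : (4 : Fin 5) ∉ S) (h : ∀ i ∈ S, ∀ j ∉ S, conc N i j = 0) : False := by
  obtain ⟨p⟩ := hc.preconnected a 4
  obtain ⟨d, -, h1, h2⟩ := p.exists_boundary_dart (S : Set (Fin 5)) ha h4
  have h3 := d.adj
  rw [SimpleGraph.fromRel_adj, conc_comm N d.toProd.2, h _ h1 _ h2] at h3
  simp at h3

lemma spec (N : Matrix (Fin 5) (Fin 6) ℕ) (h : IsDesign 2 N) :
    ∃ a b c d : ℝ, theta 2 N = {a, b, c, d} ∧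
      2 * (a + b + c + d) = (((conc N 0 1 + conc N 0 2 + conc N 0 3 + conc N 0 4) + (conc N 0 1 + conc N 1 2 + conc N 1 3 + conc N 1 4) + (conc N 0 2 + conc N 1 2 + conc N 2 3 + conc N 2 4) + (conc N 0 3 + conc N 1 3 + conc N 2 3 + conc N 3 4) + (conc N 0 4 + conc N 1 4 + conc N 2 4 + conc N 3 4) : ℕ) : ℝ) ∧
      4 * (a * b + a * c + a * d + b * c + b * d + c * d) =
        ((P2 (conc N 0 1) (conc N 0 2) (conc N 0 3) (conc N 0 4) (conc N 1 2) (conc N 1 3) (conc N 1 4) (conc N 2 3) (conc N 2 4) (conc N 3 4) (conc N 0 1 + conc N 0 2 + conc N 0 3 + conc N 0 4) (conc N 0 1 + conc N 1 2 + conc N 1 3 + conc N 1 4) (conc N 0 2 + conc N 1 2 + conc N 2 3 + conc N 2 4) (conc N 0 3 + conc N 1 3 + conc N 2 3 + conc N 3 4) (conc N 0 4 + conc N 1 4 + conc N 2 4 + conc N 3 4) : ℕ) : ℝ) - ((N2 (conc N 0 1) (conc N 0 2) (conc N 0 3) (conc N 0 4) (conc N 1 2) (conc N 1 3) (conc N 1 4) (conc N 2 3) (conc N 2 4) (conc N 3 4) (conc N 0 1 + conc N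 0 2 + conc N 0 3 + conc N 0 4) (conc N 0 1 + conc N 1 2 + conc N 1 3 + conc N 1 4) (conc N 0 2 + conc N 1 2 + conc N 2 3 + conc N 2 4) (conc N 0 3 + conc N 1 3 + conc N 2 3 + conc N 3 4) (conc N 0 4 + conc N 1 4 + conc N 2 4 + conc N 3 4) : ℕ) : ℝ) ∧
      8 * (a * b * c + a * b * d + a * c * d + b * c * d) =
        ((P3 (conc N 0 1) (conc N 0 2) (conc N 0 3) (conc N 0 4) (conc N 1 2) (conc N 1 3) (conc N 1 4) (conc N 2 3) (conc N 2 4) (conc N 3 4) (conc N 0 1 + conc N 0 2 + conc N 0 3 + conc N 0 4) (conc N 0 1 + conc N 1 2 + conc N 1 3 + conc N 1 4) (conc N 0 2 + conc N 1 2 + conc N 2 3 + conc N 2 4) (conc N 0 3 + conc N 1 3 + conc N 2 3 + conc N 3 4) (conc N 0 4 + conc N 1 4 + conc N 2 4 + conc N 3 4) : ℕ) : ℝ) - ((N3 (conc N 0 1) (conc N 0 2) (conc N 0 3) (conc N 0 4) (conc N 1 2) (conc N 1 3) (conc N 1 4) (conc N 2 3) (conc N 2 4) (conc N 3 4) (conc N 0 1 + conc N 0 2 + conc N 0 3 + conc N 0 4) (conc N 0 1 + conc N 1 2 + conc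 N 1 3 + conc N 1 4) (conc N 0 2 + conc N 1 2 + conc N 2 3 + conc N 2 4) (conc N 0 3 + conc N 1 3 + conc N 2 3 + conc N 3 4) (conc N 0 4 + conc N 1 4 + conc N 2 4 + conc N 3 4) : ℕ) : ℝ) ∧
      16 * (a * b * c * d) =
        5 * (((P4 (conc N 0 1) (conc N 0 2) (conc N 0 3) (conc N 0 4) (conc N 1 2) (conc N 1 3) (conc N 1 4) (conc N 2 3) (conc N 2 4) (conc N 3 4) (conc N 0 1 + conc N 0 2 + conc N 0 3 + conc N 0 4) (conc N 0 1 + conc N 1 2 + conc N 1 3 + conc N 1 4) (conc N 0 2 + conc N 1 2 + conc N 2 3 + conc N 2 4) (conc N 0 3 + conc N 1 3 + conc N 2 3 + conc N 3 4) (conc N 0 4 + conc N 1 4 + conc N 2 4 + conc N 3 4) : ℕ) : ℝ) - ((N4 (conc N 0 1) (conc N 0 2) (conc N 0 3) (conc N 0 4) (conc N 1 2) (conc N 1 3) (conc N 1 4) (conc N 2 3) (conc N 2 4) (conc N 3 4) (conc N 0 1 + conc N 0 2 + conc N 0 3 + conc N 0 4) (conc N 0 1 + conc N 1 2 + conc N 1 3 + conc N 1 4) (conc N 0 2 + conc N 1 2 + conc N 2 3 + conc N 2 4) (conc N 0 3 +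 conc N 1 3 + conc N 2 3 + conc N 3 4) (conc N 0 4 + conc N 1 4 + conc N 2 4 + conc N 3 4) : ℕ) : ℝ)) := by
  have hH : (info 2 N).IsHermitian := by
    ext i j
    rw [conjTranspose_apply, info_apply N h, info_apply N h, conc_comm N j i]
    by_cases hij : i = j
    · subst hij; simp
    · simp [hij, Ne.symm hij]
  have hev : ∀ x : ℝ, (info 2 N).charpoly.eval x = Matrix.det !![x - ((conc N 0 1 : ℝ) + (conc N 0 2 : ℝ) + (conc N 0 3 : ℝ) + (conc N 0 4 : ℝ)) / 2, (conc N 0 1 : ℝ) / 2, (conc N 0 2 : ℝ) / 2, (conc N 0 3 : ℝ) / 2, (conc N 0 4 : ℝ) / 2;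
      (conc N 0 1 : ℝ) / 2, x - ((conc N 0 1 : ℝ) + (conc N 1 2 : ℝ) + (conc N 1 3 : ℝ) + (conc N 1 4 : ℝ)) / 2, (conc N 1 2 : ℝ) / 2, (conc N 1 3 : ℝ) / 2, (conc N 1 4 : ℝ) / 2;
      (conc N 0 2 : ℝ) / 2, (conc N 1 2 : ℝ) / 2, x - ((conc N 0 2 : ℝ) + (conc N 1 2 : ℝ) + (conc N 2 3 : ℝ) + (conc N 2 4 : ℝ)) / 2, (conc N 2 3 : ℝ) / 2, (conc N 2 4 : ℝ) / 2;
      (conc N 0 3 : ℝ) / 2, (conc N 1 3 : ℝ) / 2, (conc N 2 3 : ℝ) / 2, x - ((conc N 0 3 : ℝ) + (conc N 1 3 : ℝ) + (conc N 2 3 : ℝ) + (conc N 3 4 : ℝ)) / 2, (conc N 3 4 : ℝ) / 2;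
      (conc N 0 4 : ℝ) / 2, (conc N 1 4 : ℝ) / 2, (conc N 2 4 : ℝ) / 2, (conc N 3 4 : ℝ) / 2, x - ((conc N 0 4 : ℝ) + (conc N 1 4 : ℝ) + (conc N 2 4 : ℝ) + (conc N 3 4 : ℝ)) / 2] := by
    intro x
    rw [Matrix.eval_charpoly]
    congr 1
    ext i j
    rw [Matrix.sub_apply, info_apply N h, Fin.sum_univ_five]
    fin_cases i <;> fin_cases j <;>
      simp [conc_comm N 1 0, conc_comm N 2 0, conc_comm N 3 0, conc_comm N 4 0, conc_comm N 2 1,
        conc_comm N 3 1, conc_comm N 4 1, conc_comm N 3 2, conc_comm N 4 2, conc_comm N 4 3] <;> ring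
  simp only [lapdet] at hev
  have hsp := hH.splits_charpoly
  have hcard : (info 2 N).charpoly.roots.card = 5 := by
    rw [← hsp.natDegree_eq_card_roots, Matrix.charpoly_natDegree_eq_dim]; simp
  have h0 : (0 : ℝ) ∈ (info 2 N).charpoly.roots := by
    rw [Polynomial.mem_roots (Matrix.charpoly_monic _).ne_zero, Polynomial.IsRoot, hev]; simp
  have h4 : (theta 2 N).card = 4 := by
    unfold theta; rw [Multiset.card_erase_of_mem h0, hcard]; rfl
  obtain ⟨a, b, c, d, habcd⟩ := Multiset.card_eq_four.1 h4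
  have hr : (info 2 N).charpoly.roots = 0 ::ₘ {a, b, c, d} := by
    rw [← habcd]; exact (Multiset.cons_erase h0).symm
  have hp : ∀ x : ℝ, (info 2 N).charpoly.eval x = x * ((x - a) * ((x - b) * ((x - c) * (x - d)))) := by
    intro x
    rw [hsp.eq_prod_roots_of_monic (Matrix.charpoly_monic _), hr]
    simp
  refine ⟨a, b, c, d, habcd, ?_⟩
  have q1 := (hp 1).symm.trans (hev 1)
  have q2 := (hp (-1)).symm.trans (hev (-1))
  have q3 := (hp 2).symm.trans (hev 2)
  have q4 := (hp (-2)).symm.trans (hev (-2))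
  simp only [P2, N2, P3, N3, P4, N4] at *
  push_cast
  refine ⟨?_, ?_, ?_, ?_⟩
  · linear_combination (1 / 3 : ℝ) * (q1 + q2) - (1 / 12 : ℝ) * (q3 + q4)
  · linear_combination (-2 / 3 : ℝ) * (q1 - q2) + (1 / 3 : ℝ) * (q3 - q4)
  · linear_combination (-16 / 3 : ℝ) * (q1 + q2) + (1 / 3 : ℝ) * (q3 + q4)
  · linear_combination (32 / 3 : ℝ) * (q1 - q2) - (4 / 3 : ℝ) * (q3 - q4)

lemma bounds (N : Matrix (Fin 5) (Fin 6) ℕ) (h : IsDesign 2 N) (hc : Conn N) :
    46 / 15 ≤ ((theta 2 N).map (fun t => 1 / t)).sum ∧ (theta 2 N).prod ≤ 15 / 4 ∧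
      ∃ y ∈ theta 2 N, y ≤ 1 := by
  obtain ⟨a, b, c, d, ht, s1, s2, s3, s4⟩ := spec N h
  rcases all_ok _ _ _ _ _ _ _ _ _ _ (tot N h) with hh | hh | hh | hh | hh | hh | hh | hh | hh | hh | hh | hh | hh | hh | hh | hh
  · refine (nocut N hc {0} 0 (by decide) (by decide) ?_).elim
    intro i hi j hj
    fin_cases i <;> fin_cases j <;> first | exact absurd hi (by decide) | exact absurd hj (by decide) | (simp only [Fin.reduceFinMk, Fin.zero_eta, Fin.mk_one]; first | omega | (rw [conc_comm]; omega))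
  · refine (nocut N hc {1} 1 (by decide) (by decide) ?_).elim
    intro i hi j hj
    fin_cases i <;> fin_cases j <;> first | exact absurd hi (by decide) | exact absurd hj (by decide) | (simp only [Fin.reduceFinMk, Fin.zero_eta, Fin.mk_one]; first | omega | (rw [conc_comm]; omega))
  · refine (nocut N hc {0, 1} 0 (by decide) (by decide) ?_).elim
    intro i hi j hj
    fin_cases i <;> fin_cases j <;> first | exact absurd hi (by decide) | exact absurd hj (by decide) | (simp only [Fin.reduceFinMk, Fin.zero_eta, Fin.mk_one]; first | omega | (rw [conc_comm]; omega))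
  · refine (nocut N hc {2} 2 (by decide) (by decide) ?_).elim
    intro i hi j hj
    fin_cases i <;> fin_cases j <;> first | exact absurd hi (by decide) | exact absurd hj (by decide) | (simp only [Fin.reduceFinMk, Fin.zero_eta, Fin.mk_one]; first | omega | (rw [conc_comm]; omega))
  · refine (nocut N hc {0, 2} 0 (by decide) (by decide) ?_).elim
    intro i hi j hj
    fin_cases i <;> fin_cases j <;> first | exact absurd hi (by decide) | exact absurd hj (by decide) | (simp only [Fin.reduceFinMk, Fin.zero_eta, Fin.mk_one]; first | omega | (rw [conc_comm]; omega))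
  · refine (nocut N hc {1, 2} 1 (by decide) (by decide) ?_).elim
    intro i hi j hj
    fin_cases i <;> fin_cases j <;> first | exact absurd hi (by decide) | exact absurd hj (by decide) | (simp only [Fin.reduceFinMk, Fin.zero_eta, Fin.mk_one]; first | omega | (rw [conc_comm]; omega))
  · refine (nocut N hc {0, 1, 2} 0 (by decide) (by decide) ?_).elim
    intro i hi j hj
    fin_cases i <;> fin_cases j <;> first | exact absurd hi (by decide) | exact absurd hj (by decide) | (simp only [Fin.reduceFinMk, Fin.zero_eta, Fin.mk_one]; first | omega | (rw [conc_comm]; omega))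
  · refine (nocut N hc {3} 3 (by decide) (by decide) ?_).elim
    intro i hi j hj
    fin_cases i <;> fin_cases j <;> first | exact absurd hi (by decide) | exact absurd hj (by decide) | (simp only [Fin.reduceFinMk, Fin.zero_eta, Fin.mk_one]; first | omega | (rw [conc_comm]; omega))
  · refine (nocut N hc {0, 3} 0 (by decide) (by decide) ?_).elim
    intro i hi j hj
    fin_cases i <;> fin_cases j <;> first | exact absurd hi (by decide) | exact absurd hj (by decide) | (simp only [Fin.reduceFinMk, Fin.zero_eta, Fin.mk_one]; first | omega | (rw [conc_comm]; omega))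
  · refine (nocut N hc {1, 3} 1 (by decide) (by decide) ?_).elim
    intro i hi j hj
    fin_cases i <;> fin_cases j <;> first | exact absurd hi (by decide) | exact absurd hj (by decide) | (simp only [Fin.reduceFinMk, Fin.zero_eta, Fin.mk_one]; first | omega | (rw [conc_comm]; omega))
  · refine (nocut N hc {0, 1, 3} 0 (by decide) (by decide) ?_).elim
    intro i hi j hj
    fin_cases i <;> fin_cases j <;> first | exact absurd hi (by decide) | exact absurd hj (by decide) | (simp only [Fin.reduceFinMk, Fin.zero_eta, Fin.mk_one]; first | omega | (rw [conc_comm]; omega))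
  · refine (nocut N hc {2, 3} 2 (by decide) (by decide) ?_).elim
    intro i hi j hj
    fin_cases i <;> fin_cases j <;> first | exact absurd hi (by decide) | exact absurd hj (by decide) | (simp only [Fin.reduceFinMk, Fin.zero_eta, Fin.mk_one]; first | omega | (rw [conc_comm]; omega))
  · refine (nocut N hc {0, 2, 3} 0 (by decide) (by decide) ?_).elim
    intro i hi j hj
    fin_cases i <;> fin_cases j <;> first | exact absurd hi (by decide) | exact absurd hj (by decide) | (simp only [Fin.reduceFinMk, Fin.zero_eta, Fin.mk_one]; first | omega | (rw [conc_comm]; omega))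
  · refine (nocut N hc {1, 2, 3} 1 (by decide) (by decide) ?_).elim
    intro i hi j hj
    fin_cases i <;> fin_cases j <;> first | exact absurd hi (by decide) | exact absurd hj (by decide) | (simp only [Fin.reduceFinMk, Fin.zero_eta, Fin.mk_one]; first | omega | (rw [conc_comm]; omega))
  · refine (nocut N hc {0, 1, 2, 3} 0 (by decide) (by decide) ?_).elim
    intro i hi j hj
    fin_cases i <;> fin_cases j <;> first | exact absurd hi (by decide) | exact absurd hj (by decide) | (simp only [Fin.reduceFinMk, Fin.zero_eta, Fin.mk_one]; first | omega | (rw [conc_comm]; omega))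
  generalize (conc N 0 1 + conc N 0 2 + conc N 0 3 + conc N 0 4) + (conc N 0 1 + conc N 1 2 + conc N 1 3 + conc N 1 4) + (conc N 0 2 + conc N 1 2 + conc N 2 3 + conc N 2 4) + (conc N 0 3 + conc N 1 3 + conc N 2 3 + conc N 3 4) + (conc N 0 4 + conc N 1 4 + conc N 2 4 + conc N 3 4) = e1 at *
  generalize P2 (conc N 0 1) (conc N 0 2) (conc N 0 3) (conc N 0 4) (conc N 1 2) (conc N 1 3) (conc N 1 4) (conc N 2 3) (conc N 2 4) (conc N 3 4) (conc N 0 1 + conc N 0 2 + conc N 0 3 + conc N 0 4) (conc N 0 1 + conc N 1 2 + conc N 1 3 + conc N 1 4) (conc N 0 2 + conc N 1 2 + conc N 2 3 + conc N 2 4) (conc N 0 3 + conc N 1 3 + conc N 2 3 + conc N 3 4) (conc N 0 4 + conc N 1 4 + conc N 2 4 + conc N 3 4) = p2 at *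
  generalize N2 (conc N 0 1) (conc N 0 2) (conc N 0 3) (conc N 0 4) (conc N 1 2) (conc N 1 3) (conc N 1 4) (conc N 2 3) (conc N 2 4) (conc N 3 4) (conc N 0 1 + conc N 0 2 + conc N 0 3 + conc N 0 4) (conc N 0 1 + conc N 1 2 + conc N 1 3 + conc N 1 4) (conc N 0 2 + conc N 1 2 + conc N 2 3 + conc N 2 4) (conc N 0 3 + conc N 1 3 + conc N 2 3 + conc N 3 4) (conc N 0 4 + conc N 1 4 + conc N 2 4 + conc N 3 4) = n2 at *
  generalize P3 (conc N 0 1) (conc N 0 2) (conc N 0 3) (conc N 0 4) (conc N 1 2) (conc N 1 3) (conc N 1 4) (conc N 2 3) (conc N 2 4) (conc N 3 4) (conc N 0 1 + conc N 0 2 + conc N 0 3 + conc N 0 4) (conc N 0 1 + conc N 1 2 + conc N 1 3 + conc N 1 4) (conc N 0 2 + conc N 1 2 + conc N 2 3 + conc N 2 4) (conc N 0 3 + conc N 1 3 + conc N 2 3 + conc N 3 4) (conc N 0 4 + conc N 1 4 + conc N 2 4 + conc N 3 4) = p3 at *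
  generalize N3 (conc N 0 1) (conc N 0 2) (conc N 0 3) (conc N 0 4) (conc N 1 2) (conc N 1 3) (conc N 1 4) (conc N 2 3) (conc N 2 4) (conc N 3 4) (conc N 0 1 + conc N 0 2 + conc N 0 3 + conc N 0 4) (conc N 0 1 + conc N 1 2 + conc N 1 3 + conc N 1 4) (conc N 0 2 + conc N 1 2 + conc N 2 3 + conc N 2 4) (conc N 0 3 + conc N 1 3 + conc N 2 3 + conc N 3 4) (conc N 0 4 + conc N 1 4 + conc N 2 4 + conc N 3 4) = n3 at *
  generalize P4 (conc N 0 1) (conc N 0 2) (conc N 0 3) (conc N 0 4) (conc N 1 2) (conc N 1 3) (conc N 1 4) (conc N 2 3) (conc N 2 4) (conc N 3 4) (conc N 0 1 + conc N 0 2 + conc N 0 3 + conc N 0 4) (conc N 0 1 + conc N 1 2 + conc N 1 3 + conc N 1 4) (conc N 0 2 + conc N 1 2 + conc N 2 3 + conc N 2 4) (conc N 0 3 + conc N 1 3 + conc N 2 3 + conc N 3 4) (conc N 0 4 + conc N 1 4 + conc N 2 4 + conc N 3 4) = p4 at *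
  generalize N4 (conc N 0 1) (conc N 0 2) (conc N 0 3) (conc N 0 4) (conc N 1 2) (conc N 1 3) (conc N 1 4) (conc N 2 3) (conc N 2 4) (conc N 3 4) (conc N 0 1 + conc N 0 2 + conc N 0 3 + conc N 0 4) (conc N 0 1 + conc N 1 2 + conc N 1 3 + conc N 1 4) (conc N 0 2 + conc N 1 2 + conc N 2 3 + conc N 2 4) (conc N 0 3 + conc N 1 3 + conc N 2 3 + conc N 3 4) (conc N 0 4 + conc N 1 4 + conc N 2 4 + conc N 3 4) = n4 at *
  obtain ⟨g1, g2, g3, g4⟩ := hh
  have g1' : (n4 : ℝ) < p4 := by exact_mod_cast g1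
  have g2' : (p4 : ℝ) ≤ n4 + 12 := by exact_mod_cast g2
  have g3' : 23 * (p4 : ℝ) + 3 * n3 ≤ 23 * n4 + 3 * p3 := by exact_mod_cast g3
  have hpos : 0 < a * b * c * d := by linarith
  have ha : a ≠ 0 := by rintro rfl; simp at hpos
  have hb : b ≠ 0 := by rintro rfl; simp at hpos
  have hc' : c ≠ 0 := by rintro rfl; simp at hpos
  have hd : d ≠ 0 := by rintro rfl; simp at hpos
  rw [ht]
  refine ⟨?_, ?_, ?_⟩
  · have : (Multiset.map (fun t : ℝ => 1 / t) {a, b, c, d}).sum =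
        (a * b * c + a * b * d + a * c * d + b * c * d) / (a * b * c * d) := by
      simp; field_simp; ring
    rw [this, le_div_iff₀ hpos]
    linarith
  · simp only [Multiset.insert_eq_cons, Multiset.prod_cons, Multiset.prod_singleton]
    linarith
  · by_contra hcon
    push Not at hcon
    have a1 := sub_pos.2 (hcon a (by simp))
    have b1 := sub_pos.2 (hcon b (by simp))
    have c1 := sub_pos.2 (hcon c (by simp))
    have d1 := sub_pos.2 (hcon d (by simp))
    rcases g4 with g | g | g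
    · have g' : (p2 : ℝ) + 24 ≤ n2 + 6 * e1 := by exact_mod_cast g
      have : 0 < (a - 1) * (b - 1) + (a - 1) * (c - 1) + (a - 1) * (d - 1) + (b - 1) * (c - 1) +
        (b - 1) * (d - 1) + (c - 1) * (d - 1) := by positivity
      linarith
    · have g' : (p3 : ℝ) + 4 * n2 + 12 * e1 ≤ n3 + 4 * p2 + 32 := by exact_mod_cast g
      have : 0 < (a - 1) * (b - 1) * (c - 1) + (a - 1) * (b - 1) * (d - 1) + (a - 1) * (c - 1) * (d - 1) +
        (b - 1) * (c - 1) * (d - 1) := by positivity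
      linarith
    · have g' : 5 * (p4 : ℝ) + 2 * n3 + 4 * p2 + 16 ≤ 5 * n4 + 2 * p3 + 4 * n2 + 8 * e1 := by
        exact_mod_cast g
      have : 0 < (a - 1) * (b - 1) * (c - 1) * (d - 1) := by positivity
      linarith

def N0 : Matrix (Fin 5) (Fin 6) ℕ :=
  !![1, 1, 1, 0, 0, 0; 0, 0, 0, 1, 1, 1; 1, 0, 0, 1, 0, 0; 0, 1, 0, 0, 1, 0; 0, 0, 1, 0, 0, 1]

lemma d0 : IsDesign 2 N0 := by unfold IsDesign; decide

lemma info0 : info 2 N0 = !![3/2, 0, -1/2, -1/2, -1/2; 0, 3/2, -1/2, -1/2, -1/2;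
    -1/2, -1/2, 1, 0, 0; -1/2, -1/2, 0, 1, 0; -1/2, -1/2, 0, 0, 1] := by
  ext i j
  rw [info_apply N0 d0]
  fin_cases i <;> fin_cases j <;> simp [conc, N0, Fin.sum_univ_succ] <;> norm_num

lemma theta0 : theta 2 N0 = {1, 1, 3 / 2, 5 / 2} := by
  have : (info 2 N0).charpoly =
      (Multiset.map (fun a => Polynomial.X - Polynomial.C a) (0 ::ₘ {1, 1, 3 / 2, 5 / 2} : Multiset ℝ)).prod := by
    apply Polynomial.funext
    intro x
    rw [Matrix.eval_charpoly, info0, det5]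
    simp
    ring
  unfold theta
  rw [this, Polynomial.roots_multiset_prod_X_sub_C, Multiset.erase_cons_head]

theorem result : ∃ N : Matrix (Fin 5) (Fin 6) ℕ, IsDesign 2 N ∧ Conn N ∧
    (∀ N' : Matrix (Fin 5) (Fin 6) ℕ, IsDesign 2 N' → Conn N' →
      ((theta 2 N).map (fun t => 1 / t)).sum ≤ ((theta 2 N').map (fun t => 1 / t)).sum ∧
      (theta 2 N').prod ≤ (theta 2 N).prod ∧
      (∃ y ∈ theta 2 N', ∀ x ∈ theta 2 N, y ≤ x)) ∧
    ∃ i j m n : Fin 5, i ≠ j ∧ m ≠ n ∧ conc N m n < conc N i j ∧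
      (∃ G, info 2 N * G * info 2 N = info 2 N) ∧
      ∀ G, info 2 N * G * info 2 N = info 2 N → var G m n ≤ var G i j := by
  refine ⟨N0, d0, ?_, ?_, 0, 2, 0, 1, by decide, by decide, by decide, ?_, ?_⟩
  · unfold Conn
    have adj : ∀ i j : Fin 5, i ≠ j → 0 < conc N0 i j →
        (SimpleGraph.fromRel (fun i j => 0 < conc N0 i j)).Reachable i j := fun i j h1 h2 =>
      SimpleGraph.Adj.reachable (by rw [SimpleGraph.fromRel_adj]; exact ⟨h1, Or.inl h2⟩)
    have r : ∀ j : Fin 5, (SimpleGraph.fromRel (fun i j => 0 < conc N0 i j)).Reachable 0 j := by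
      intro j
      fin_cases j
      · rfl
      · exact (adj 0 2 (by decide) (by decide)).trans (adj 2 1 (by decide) (by decide))
      · exact adj 0 2 (by decide) (by decide)
      · exact adj 0 3 (by decide) (by decide)
      · exact adj 0 4 (by decide) (by decide)
    exact ⟨fun u v => (r u).symm.trans (r v)⟩
  · intro N' h hc
    obtain ⟨h1, h2, y, hy, h3⟩ := bounds N' h hc
    rw [theta0]
    refine ⟨le_trans (le_of_eq ?_) h1, h2.trans (le_of_eq ?_), y, hy, ?_⟩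
    · simp; norm_num
    · simp; norm_num
    · intro x hx
      simp at hx
      rcases hx with rfl | rfl | rfl <;> linarith
  · refine ⟨!![0, 0, 0, 0, 0; 0, 4/3, 2/3, 2/3, 2/3; 0, 2/3, 4/3, 1/3, 1/3; 0, 2/3, 1/3, 4/3, 1/3;
      0, 2/3, 1/3, 1/3, 4/3], ?_⟩
    rw [info0]
    ext i j
    fin_cases i <;> fin_cases j <;> simp [Matrix.mul_apply, Fin.sum_univ_succ] <;> norm_num
  · intro G hG
    have key : ∀ (y : Fin 5 → ℝ), (info 2 N0 *ᵥ y) ⬝ᵥ G *ᵥ (info 2 N0 *ᵥ y) = y ⬝ᵥ info 2 N0 *ᵥ y := by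
      intro y
      have hs : (info 2 N0)ᵀ = info 2 N0 := by
        rw [info0]; ext i j; fin_cases i <;> fin_cases j <;> simp
      conv_rhs => rw [← hG, ← mulVec_mulVec, ← mulVec_mulVec, dotProduct_mulVec, ← mulVec_transpose, hs]
    have e1 : (Pi.single 0 1 - Pi.single 1 1 : Fin 5 → ℝ) = info 2 N0 *ᵥ ![0, -4/3, -2/3, -2/3, -2/3] := by
      rw [info0]; ext i; fin_cases i <;> simp [mulVec, dotProduct, Fin.sum_univ_succ] <;> norm_num
    have e2 : (Pi.single 0 1 - Pi.single 2 1 : Fin 5 → ℝ) = info 2 N0 *ᵥ ![0, -2/3, -4/3, -1/3, -1/3] := by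
      rw [info0]; ext i; fin_cases i <;> simp [mulVec, dotProduct, Fin.sum_univ_succ] <;> norm_num
    unfold var
    rw [e1, e2, key, key, ← e1, ← e2]
    simp [dotProduct, Fin.sum_univ_succ]

end Pool.Agent.Results.MP_c32163_co.K23
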